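import Pool.Agent.H92.SF.LUT
import Pool.Agent.H62.HIL.Dim2

/-!
# MP_70ba79_ag, THEOREM S: module BAS (the line does not meet `G = dd 2 G = 0`)
-/

set_option autoImplicit false

namespace Pool.Agent.H48.SFU

open MvPolynomial
open Pool.Agent.H84.SM (dp cr dt)
open Pool.Agent.H3.SF Pool.Agent.H92.SF

section Basic

variable {k F : Type} [Field k] [Field F] [Algebra k F]

/-- a form which is monic in the third variable -/
theorem bs_expand (u : Fin 3 → F) {N : ℕ} {q : MvPolynomial (Fin 3) k} (hq : q.IsHomogeneous N)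
    (h1 : q.coeff (Finsupp.single 2 N) = 1) : ∃ T : Finset (Fin 3 →₀ ℕ),
    aeval u q = u 2 ^ N + ∑ μ ∈ T, algebraMap k F (coeff μ q) *
      (u 0 ^ μ 0 * u 1 ^ μ 1 * u 2 ^ μ 2) ∧ ∀ μ ∈ T, μ 0 + μ 1 + μ 2 = N ∧ μ 2 < N := by
  classical
  have hmem : Finsupp.single 2 N ∈ q.support := by
    rw [mem_support_iff, h1]
    exact one_ne_zero
  refine ⟨q.support.erase (Finsupp.single 2 N), ?_, ?_⟩
  · rw [aeval_def, eval₂_eq', ← Finset.add_sum_erase _ _ hmem, h1, map_one, one_mul]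
    congr 1
    · rw [Fin.prod_univ_three]
      simp
    · refine Finset.sum_congr rfl fun μ _ => ?_
      rw [Fin.prod_univ_three]
  · intro μ hμ
    obtain ⟨hne, hμ'⟩ := Finset.mem_erase.1 hμ
    have h2 := hq (mem_support_iff.1 hμ')
    rw [Finsupp.weight_apply, Finsupp.sum_fintype _ _ (by simp)] at h2
    have h3 : μ 0 + μ 1 + μ 2 = N := by
      rw [← h2, Fin.sum_univ_three]
      simp
    refine ⟨h3, ?_⟩
    by_contra h4
    push Not at h4
    apply hne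
    ext i
    fin_cases i
    · simp
      omega
    · simp
      omega
    · simp
      omega

theorem bs_mem {ι : Type} (V : ValuationSubring F) {v : ι → F} (hc : ∀ c, algebraMap k F c ∈ V)
    (hv : ∀ i, v i ∈ V) (p : MvPolynomial ι k) : aeval v p ∈ V := by
  induction p using MvPolynomial.induction_on with
  | C a =>
    rw [algHom_C]
    exact hc a
  | add p q hp hq =>
    rw [map_add]
    exact add_mem hp hq
  | mul_X p i hp =>
    rw [map_mul, aeval_X]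
    exact mul_mem hp (hv i)

theorem bs_root (V : ValuationSubring F) {x : F} {N : ℕ} (hN : 1 ≤ N) (h : x ^ N ∈ V) : x ∈ V := by
  rcases V.mem_or_inv_mem x with h1 | h1
  · exact h1
  · rcases eq_or_ne x 0 with rfl | hx
    · exact zero_mem V
    · have h2 : x = x ^ N * x⁻¹ ^ (N - 1) := by
        obtain ⟨M, rfl⟩ : ∃ M, N = M + 1 := ⟨N - 1, by omega⟩
        rw [Nat.add_sub_cancel, pow_succ, mul_comm (x ^ M) x, mul_assoc, ← mul_pow,
          mul_inv_cancel₀ hx, one_pow, mul_one]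
      rw [h2]
      exact mul_mem h (pow_mem h1 _)

/-- the elements `u i` are integral over `k[u 0 ^ N, u 1 ^ N, q]` -/
theorem bs_trans {u : Fin 3 → F} {N : ℕ} (hN : 1 ≤ N) {q : MvPolynomial (Fin 3) k}
    (hq : q.IsHomogeneous N) (h1 : q.coeff (Finsupp.single 2 N) = 1) {a : F} (ha : Itg k u a) :
    Itg k ![u 0 ^ N, u 1 ^ N, aeval u q] a := by
  unfold Itg at *
  rw [Pool.Agent.H62.HIL.pf_VRC] at *
  intro V hV
  have hc : ∀ c, algebraMap k F c ∈ V := by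
    intro c
    have h2 := hV (C c)
    rwa [AlgHom.coe_toRingHom, algHom_C] at h2
  have hv : ∀ i, (![u 0 ^ N, u 1 ^ N, aeval u q] : Fin 3 → F) i ∈ V := by
    intro i
    have h2 := hV (X i)
    rwa [AlgHom.coe_toRingHom, aeval_X] at h2
  have h0 : u 0 ∈ V := bs_root V hN (hv 0)
  have h01 : u 1 ∈ V := bs_root V hN (hv 1)
  have h2 : u 2 ∈ V := by
    rcases V.mem_or_inv_mem (u 2) with h3 | h3
    · exact h3
    · rcases eq_or_ne (u 2) 0 with h4 | h4
      · rw [h4]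
        exact zero_mem V
      · obtain ⟨T, hT, hT'⟩ := bs_expand u hq h1
        have h5 : u 2 = aeval u q * (u 2)⁻¹ ^ (N - 1) - ∑ μ ∈ T, algebraMap k F (coeff μ q) *
            (u 0 ^ μ 0 * u 1 ^ μ 1 * (u 2)⁻¹ ^ (N - 1 - μ 2)) := by
          have h6 : ∀ μ ∈ T, algebraMap k F (coeff μ q) *
              (u 0 ^ μ 0 * u 1 ^ μ 1 * (u 2)⁻¹ ^ (N - 1 - μ 2)) =
              algebraMap k F (coeff μ q) * (u 0 ^ μ 0 * u 1 ^ μ 1 * u 2 ^ μ 2) *
                (u 2)⁻¹ ^ (N - 1) := by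
            intro μ hμ
            obtain ⟨M, hM⟩ : ∃ M, N - 1 = μ 2 + M := ⟨N - 1 - μ 2, by
              have := (hT' μ hμ).2
              omega⟩
            have h7 : N - 1 - μ 2 = M := by omega
            have h8 : u 2 ^ μ 2 * (u 2)⁻¹ ^ μ 2 = 1 := by
              rw [← mul_pow, mul_inv_cancel₀ h4, one_pow]
            rw [h7, hM, pow_add]
            calc _ = algebraMap k F (coeff μ q) * (u 0 ^ μ 0 * u 1 ^ μ 1 * (u 2)⁻¹ ^ M) * 1 := by
                  rw [mul_one]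
              _ = algebraMap k F (coeff μ q) * (u 0 ^ μ 0 * u 1 ^ μ 1 * (u 2)⁻¹ ^ M) *
                  (u 2 ^ μ 2 * (u 2)⁻¹ ^ μ 2) := by rw [h8]
              _ = _ := by ring
          rw [Finset.sum_congr rfl h6, ← Finset.sum_mul, ← sub_mul, hT, add_sub_cancel_right]
          obtain ⟨M, hM⟩ : ∃ M, N = M + 1 := ⟨N - 1, by omega⟩
          rw [hM, Nat.add_sub_cancel, pow_succ, mul_comm (u 2 ^ M) (u 2), mul_assoc, ← mul_pow,
            mul_inv_cancel₀ h4, one_pow, mul_one]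
        rw [h5]
        refine sub_mem (mul_mem (hv 2) (pow_mem h3 _)) (sum_mem fun μ _ => ?_)
        exact mul_mem (hc _) (mul_mem (mul_mem (pow_mem h0 _) (pow_mem h01 _)) (pow_mem h3 _))
  have hu : ∀ i, u i ∈ V := by
    intro i
    fin_cases i
    · exact h0
    · exact h01
    · exact h2
  exact ha V fun p => bs_mem V hc hu p

theorem bs_scale {R ι : Type} [CommRing R] [Algebra k R] (c : R) (y : ι → R)
    {b : MvPolynomial ι k} {n : ℕ} (hb : b.IsHomogeneous n) :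
    aeval (fun i => c * y i) b = c ^ n * aeval y b := by
  rw [aeval_def, aeval_def, eval₂_eq, eval₂_eq, Finset.mul_sum]
  refine Finset.sum_congr rfl fun m hm => ?_
  have h1 : ∑ i ∈ m.support, m i = n := by
    have h2 := hb (mem_support_iff.1 hm)
    rw [Finsupp.weight_apply, Finsupp.sum] at h2
    simpa using h2
  rw [Finset.prod_congr rfl fun i _ => mul_pow c (y i) (m i), Finset.prod_mul_distrib,
    Finset.prod_pow_eq_pow_sum, h1]
  ring

/-- reduction modulo `G` -/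
theorem bs_mod {B : Type} [CommRing B] [Algebra k B] (a b g w : B) (p : MvPolynomial (Fin 3) k) :
    g ∣ aeval (![a, b, g * w] : Fin 3 → B) p -
      aeval (![a, b] : Fin 2 → B)
        (aeval (![X 0, X 1, 0] : Fin 3 → MvPolynomial (Fin 2) k) p) := by
  have h1 : (Ideal.Quotient.mkₐ k (Ideal.span {g})).comp (aeval (![a, b, g * w] : Fin 3 → B)) =
      ((Ideal.Quotient.mkₐ k (Ideal.span {g})).comp (aeval (![a, b] : Fin 2 → B))).comp
        (aeval (![X 0, X 1, 0] : Fin 3 → MvPolynomial (Fin 2) k)) := by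
    refine MvPolynomial.algHom_ext fun i => ?_
    rw [AlgHom.comp_apply, AlgHom.comp_apply, AlgHom.comp_apply, aeval_X, aeval_X]
    fin_cases i
    · simp
    · simp
    · have h2 : g * w ∈ Ideal.span {g} := Ideal.mem_span_singleton.2 (dvd_mul_right g w)
      simp only [Fin.reduceFinMk, Matrix.cons_val]
      rw [map_zero, map_zero]
      exact Ideal.Quotient.eq_zero_iff_mem.2 h2
  have h3 := congrArg (fun f => f p) h1
  have h4 : Ideal.Quotient.mk (Ideal.span {g}) (aeval (![a, b, g * w] : Fin 3 → B) p) =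
    Ideal.Quotient.mk (Ideal.span {g}) (aeval (![a, b] : Fin 2 → B)
        (aeval (![X 0, X 1, 0] : Fin 3 → MvPolynomial (Fin 2) k) p)) := h3
  exact Ideal.mem_span_singleton.1 (Ideal.Quotient.eq.1 h4)

/-- the abstract descent: a minimal relation -/
theorem bs_min {B : Type} [CommRing B] [IsDomain B] [Algebra k B] {g a : B} (hg : Prime g)
    (ha : ¬ g ∣ a) (v : Fin 2 → B) (d : ℕ)
    (h : ∃ (L : ℕ) (c : ℕ → MvPolynomial (Fin 2) k),
      (∀ i < L, (c i).IsHomogeneous ((L - i) * d)) ∧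
      g ∣ a ^ L + ∑ i ∈ Finset.range L, aeval v (c i) * a ^ i) :
    ∃ (D : ℕ) (P : MvPolynomial (Fin 2) k) (y z : B), P.IsHomogeneous D ∧ aeval v P ≠ 0 ∧
      aeval v P = g * z - a * y := by
  classical
  obtain ⟨L, hL⟩ : ∃ L, L = Nat.find h := ⟨_, rfl⟩
  obtain ⟨c, hc1, hc2⟩ := Nat.find_spec h
  rw [← hL] at hc1 hc2
  rcases L with _ | L
  · exfalso
    rw [pow_zero, Finset.range_zero, Finset.sum_empty, add_zero] at hc2
    exact hg.not_isUnit (isUnit_of_dvd_one hc2)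
  · have h1 : a ^ (L + 1) + ∑ i ∈ Finset.range (L + 1), aeval v (c i) * a ^ i =
        aeval v (c 0) + a * (a ^ L + ∑ i ∈ Finset.range L, aeval v (c (i + 1)) * a ^ i) := by
      rw [Finset.sum_range_succ', pow_zero, mul_one, mul_add, Finset.mul_sum]
      have h2 : ∀ i, a * (aeval v (c (i + 1)) * a ^ i) = aeval v (c (i + 1)) * a ^ (i + 1) :=
        fun i => by ring
      simp only [h2]
      ring
    rw [h1] at hc2
    obtain ⟨z, hz⟩ := hc2
    refine ⟨(L + 1 - 0) * d, c 0, a ^ L + ∑ i ∈ Finset.range L, aeval v (c (i + 1)) * a ^ i, z,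
      hc1 0 (Nat.succ_pos L), ?_, ?_⟩
    · intro h0
      rw [h0, zero_add] at hz
      rcases hg.dvd_or_dvd ⟨z, hz⟩ with h3 | h3
      · exact ha h3
      · have h4 : L < Nat.find h := by omega
        refine Nat.find_min h h4 ⟨fun i => c (i + 1), fun i hi => ?_, h3⟩
        have h5 := hc1 (i + 1) (by omega)
        have h6 : L + 1 - (i + 1) = L - i := by omega
        rwa [h6] at h5
    · rw [← hz]
      ring

end Basic

theorem pf_BAS (hDAT : T_DAT) (hFRK : T_FRK) : T_BAS := by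
  intro k F _ _ _ _ _ u dd δ j0 c0 J m G h
  have : CharZero F := charZero_of_injective_algebraMap (algebraMap k F).injective
  obtain ⟨N, q, hN, hq, hq1, hqG⟩ := h.mon
  obtain ⟨-, hu0, -, -, hEu, hEJ, hEg, -, hIg, -⟩ := hDAT k F u dd δ j0 c0 J m G h.toBs
  obtain ⟨-, -, -, hIK, -, -⟩ := hFRK k F u dd δ j0 c0 J m G h.toBs
  have hbig := h.big
  obtain ⟨S, hS⟩ : ∃ S : F, S = aeval u J * dd 2 G := ⟨_, rfl⟩
  have hSI : Itg k u S := by rw [hS]; exact hIg 2
  have hn2 : ¬ Itg k u (S / G) := by rw [hS]; exact h.n2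
  obtain ⟨D1, hD1⟩ : ∃ D1 : ℕ, D1 = j0 + m - 1 := ⟨_, rfl⟩
  have hSE : Hm k (eu u dd) (D1 : ℤ) S := by
    have h1 := Pool.Agent.H62.HIL.hm_mul hEJ (hEg 2)
    have h2 : (j0 : ℤ) + ((m : ℤ) - 1) = (D1 : ℤ) := by
      rw [hD1]
      omega
    rw [h2, ← hS] at h1
    exact h1
  obtain ⟨E', hE'⟩ : ∃ E' : Derivation k F F, E' = (N : k)⁻¹ • eu u dd := ⟨_, rfl⟩
  have hNk : (N : k) ≠ 0 := Nat.cast_ne_zero.2 (by omega)
  have hE1 : ∀ (t : ℤ) (x : F), Hm k (eu u dd) (N * t) x → Hm k E' t x := by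
    intro t x hx
    unfold Hm at *
    rw [hE', Derivation.smul_apply, hx, Algebra.smul_def, map_inv₀, map_natCast]
    have h1 : (N : F) ≠ 0 := Nat.cast_ne_zero.2 (by omega)
    push_cast
    field_simp
  have hv' : ∀ i, Hm k E' 1 ((![u 0 ^ N, u 1 ^ N, aeval u q] : Fin 3 → F) i) := by
    intro i
    refine hE1 1 _ ?_
    fin_cases i
    · exact Pool.Agent.H62.HIL.hm_pow (hEu 0) N
    · exact Pool.Agent.H62.HIL.hm_pow (hEu 1) N
    · have h1 := Pool.Agent.H62.HIL.hm_aeval hEu hq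
      rw [mul_one]
      exact h1
  have ha : S ^ N ∈ BB k ![u 0 ^ N, u 1 ^ N, aeval u q] E' (D1 : ℤ) :=
    ⟨bs_trans hN hq hq1 ((Bb k u).pow_mem hSI N),
      hE1 _ _ (Pool.Agent.H62.HIL.hm_pow hSE N)⟩
  obtain ⟨n, c, hc, hrel⟩ := Pool.Agent.H62.HIL.hom_relation hv' ha
  -- in the ring of integral elements
  obtain ⟨u', hu'⟩ : ∃ u' : Fin 3 → Bb k u, ∀ i, ((u' i : Bb k u) : F) = u i :=
    ⟨fun i => ⟨u i, Pool.Agent.H62.HIL.itg_iff.2 (Pool.Agent.H62.HIL.itg_var u i)⟩, fun i => rfl⟩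
  obtain ⟨GG, hGG⟩ : ∃ GG : Bb k u, (GG : F) = G := ⟨⟨G, h.itg⟩, rfl⟩
  obtain ⟨w, hw⟩ : ∃ w : Bb k u, (w : F) = aeval u q / G := ⟨⟨_, hqG⟩, rfl⟩
  obtain ⟨SS, hSS⟩ : ∃ SS : Bb k u, (SS : F) = S := ⟨⟨S, hSI⟩, rfl⟩
  have hdiv : ∀ x : Bb k u, GG ∣ x ↔ Itg k u ((x : F) / G) := by
    intro x
    constructor
    · rintro ⟨z, rfl⟩
      rw [MulMemClass.coe_mul, hGG, mul_div_cancel_left₀ _ h.ne]
      exact z.2
    · intro hx
      refine ⟨⟨_, hx⟩, Subtype.ext ?_⟩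
      rw [MulMemClass.coe_mul, hGG, mul_div_cancel₀ _ h.ne]
  have hprime : Prime GG := by
    refine ⟨?_, ?_, ?_⟩
    · intro h0
      rw [h0] at hGG
      exact h.ne hGG.symm
    · intro hun
      have h1 : GG ∣ 1 := hun.dvd
      rw [hdiv] at h1
      have h2 : Hm k (eu u dd) (-(m : ℤ)) (1 / G) := by
        have h3 := Pool.Agent.H62.HIL.hm_div (Pool.Agent.H62.HIL.hm_one (κ := k) (E := eu u dd))
          h.hom h.ne
        rwa [zero_sub] at h3
      have h3 : (1 : F) / G ∈ BB k u (eu u dd) (-(m : ℤ)) := ⟨h1, h2⟩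
      rw [h.neg _ (by omega), Submodule.mem_bot] at h3
      exact one_div_ne_zero h.ne h3
    · intro x y hxy
      rw [hdiv] at hxy
      rw [hdiv, hdiv]
      rw [MulMemClass.coe_mul] at hxy
      exact h.prm _ _ x.2 y.2 hxy
  have haS : ¬ GG ∣ SS ^ N := by
    intro h1
    have h2 := hprime.dvd_of_dvd_pow h1
    rw [hdiv, hSS] at h2
    exact hn2 h2
  have hval : ∀ p : MvPolynomial (Fin 3) k,
      ((aeval (![u' 0 ^ N, u' 1 ^ N, GG * w] : Fin 3 → Bb k u) p : Bb k u) : F) =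
        aeval (![u 0 ^ N, u 1 ^ N, aeval u q] : Fin 3 → F) p := by
    intro p
    have h1 : (Bb k u).val.comp (aeval (![u' 0 ^ N, u' 1 ^ N, GG * w] : Fin 3 → Bb k u)) =
        aeval (![u 0 ^ N, u 1 ^ N, aeval u q] : Fin 3 → F) := by
      refine MvPolynomial.algHom_ext fun i => ?_
      rw [AlgHom.comp_apply, aeval_X, aeval_X, Subalgebra.val_apply]
      fin_cases i
      · change ((u' 0 ^ N : Bb k u) : F) = u 0 ^ N
        rw [SubmonoidClass.coe_pow, hu']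
      · change ((u' 1 ^ N : Bb k u) : F) = u 1 ^ N
        rw [SubmonoidClass.coe_pow, hu']
      · change ((GG * w : Bb k u) : F) = aeval u q
        rw [MulMemClass.coe_mul, hGG, hw, mul_div_cancel₀ _ h.ne]
    exact congrArg (fun f => f p) h1
  have hex : ∃ (L : ℕ) (c : ℕ → MvPolynomial (Fin 2) k),
      (∀ i < L, (c i).IsHomogeneous ((L - i) * D1)) ∧
      GG ∣ (SS ^ N) ^ L + ∑ i ∈ Finset.range L,
        aeval (![u' 0 ^ N, u' 1 ^ N] : Fin 2 → Bb k u) (c i) * (SS ^ N) ^ i := by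
    refine ⟨n, fun i => aeval (![X 0, X 1, 0] : Fin 3 → MvPolynomial (Fin 2) k) (c i), ?_, ?_⟩
    · intro i hi
      have h1 : (0 : ℤ) ≤ ((n : ℤ) - i) * (D1 : ℤ) :=
        mul_nonneg (by omega) (Int.natCast_nonneg _)
      have h2 := (hc i hi).1 h1
      have h3 : (((n : ℤ) - i) * (D1 : ℤ)).toNat = (n - i) * D1 := by
        have h4 : ((n : ℤ) - i) * (D1 : ℤ) = (((n - i) * D1 : ℕ) : ℤ) := by
          rw [Nat.cast_mul, Nat.cast_sub hi.le]
        rw [h4, Int.toNat_natCast]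
      rw [h3] at h2
      have h5 := h2.aeval (![X 0, X 1, 0] : Fin 3 → MvPolynomial (Fin 2) k) (n := 1) (by
        intro j
        fin_cases j
        · exact isHomogeneous_X _ _
        · exact isHomogeneous_X _ _
        · exact isHomogeneous_zero _ _ _)
      rwa [one_mul] at h5
    · have h1 : (SS ^ N) ^ n + ∑ i ∈ Finset.range n,
          aeval (![u' 0 ^ N, u' 1 ^ N, GG * w] : Fin 3 → Bb k u) (c i) * (SS ^ N) ^ i = 0 := by
        refine Subtype.ext ?_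
        have h2 : ((((SS ^ N) ^ n + ∑ i ∈ Finset.range n,
          aeval (![u' 0 ^ N, u' 1 ^ N, GG * w] : Fin 3 → Bb k u) (c i) * (SS ^ N) ^ i :
            Bb k u)) : F) = (S ^ N) ^ n + ∑ i ∈ Finset.range n,
          aeval (![u 0 ^ N, u 1 ^ N, aeval u q] : Fin 3 → F) (c i) * (S ^ N) ^ i := by
          rw [AddMemClass.coe_add, AddSubmonoidClass.coe_finsetSum]
          congr 1
          · rw [SubmonoidClass.coe_pow, SubmonoidClass.coe_pow, hSS]
          · refine Finset.sum_congr rfl fun i _ => ?_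
            rw [MulMemClass.coe_mul, hval, SubmonoidClass.coe_pow, SubmonoidClass.coe_pow, hSS]
        rw [h2, hrel]
        rfl
      have h3 : (SS ^ N) ^ n + ∑ i ∈ Finset.range n,
          aeval (![u' 0 ^ N, u' 1 ^ N] : Fin 2 → Bb k u)
            (aeval (![X 0, X 1, 0] : Fin 3 → MvPolynomial (Fin 2) k) (c i)) * (SS ^ N) ^ i =
          0 - ∑ i ∈ Finset.range n,
            (aeval (![u' 0 ^ N, u' 1 ^ N, GG * w] : Fin 3 → Bb k u) (c i) -
              aeval (![u' 0 ^ N, u' 1 ^ N] : Fin 2 → Bb k u)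
                (aeval (![X 0, X 1, 0] : Fin 3 → MvPolynomial (Fin 2) k) (c i))) *
              (SS ^ N) ^ i := by
        rw [← h1, add_sub_assoc, ← Finset.sum_sub_distrib]
        congr 1
        refine Finset.sum_congr rfl fun i _ => ?_
        ring
      rw [h3]
      refine dvd_sub (dvd_zero _) (Finset.dvd_sum fun i _ => ?_)
      exact (bs_mod _ _ _ _ _).mul_right _
  obtain ⟨D, P, y, z, hP, hP0, hPe⟩ := bs_min hprime haS _ D1 hex
  -- in the field
  have hval2 : ((aeval (![u' 0 ^ N, u' 1 ^ N] : Fin 2 → Bb k u) P : Bb k u) : F) =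
      aeval (![u 0 ^ N, u 1 ^ N] : Fin 2 → F) P := by
    have h1 : (Bb k u).val.comp (aeval (![u' 0 ^ N, u' 1 ^ N] : Fin 2 → Bb k u)) =
        aeval (![u 0 ^ N, u 1 ^ N] : Fin 2 → F) := by
      refine MvPolynomial.algHom_ext fun i => ?_
      rw [AlgHom.comp_apply, aeval_X, aeval_X, Subalgebra.val_apply]
      fin_cases i
      · change ((u' 0 ^ N : Bb k u) : F) = u 0 ^ N
        rw [SubmonoidClass.coe_pow, hu']
      · change ((u' 1 ^ N : Bb k u) : F) = u 1 ^ N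
        rw [SubmonoidClass.coe_pow, hu']
    exact congrArg (fun f => f P) h1
  have hPF : aeval (![u 0 ^ N, u 1 ^ N] : Fin 2 → F) P = G * z - S ^ N * y := by
    rw [← hval2, hPe, AddSubgroupClass.coe_sub, MulMemClass.coe_mul, MulMemClass.coe_mul,
      SubmonoidClass.coe_pow, hGG, hSS]
  have hPF0 : aeval (![u 0 ^ N, u 1 ^ N] : Fin 2 → F) P ≠ 0 := by
    rw [← hval2]
    intro h0
    exact hP0 (Subtype.ext h0)
  obtain ⟨tK, htK⟩ : ∃ tK : kap k u, (tK : F) = u 1 / u 0 :=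
    ⟨⟨_, IntermediateField.subset_adjoin k _ rfl⟩, rfl⟩
  obtain ⟨cK, hcK⟩ : ∃ cK : kap k u, (cK : F) = aeval (![1, (u 1 / u 0) ^ N] : Fin 2 → F) P := by
    refine ⟨aeval (![1, tK ^ N] : Fin 2 → kap k u) P, ?_⟩
    have h1 : (kap k u).val.comp (aeval (![1, tK ^ N] : Fin 2 → kap k u)) =
        aeval (![1, (u 1 / u 0) ^ N] : Fin 2 → F) := by
      refine MvPolynomial.algHom_ext fun i => ?_
      rw [AlgHom.comp_apply, aeval_X, aeval_X, IntermediateField.coe_val]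
      fin_cases i
      · rfl
      · change ((tK ^ N : kap k u) : F) = (u 1 / u 0) ^ N
        rw [SubmonoidClass.coe_pow, htK]
    exact congrArg (fun f => f P) h1
  have hsc : aeval (![u 0 ^ N, u 1 ^ N] : Fin 2 → F) P = (u 0 ^ N) ^ D * cK := by
    rw [hcK, ← bs_scale (u 0 ^ N) (![1, (u 1 / u 0) ^ N] : Fin 2 → F) hP]
    congr 2
    funext i
    fin_cases i
    · exact (mul_one _).symm
    · change u 1 ^ N = u 0 ^ N * (u 1 / u 0) ^ N
      rw [← mul_pow, mul_div_cancel₀ _ (hu0 0)]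
  have hcK0 : (cK : F) ≠ 0 := by
    intro h0
    rw [hsc, h0, mul_zero] at hPF0
    exact hPF0 rfl
  -- in the ring of the elements which are integral over the field of the pencil
  have hself : ∀ i, ItK k u ((![u 0, u 2] : Fin 2 → F) i) := fun i =>
    Pool.Agent.H62.HIL.itg_iff.2 (Pool.Agent.H62.HIL.itg_var _ i)
  obtain ⟨U0, hU0⟩ : ∃ U0 : Bb (kap k u) ![u 0, u 2], (U0 : F) = u 0 := ⟨⟨_, hself 0⟩, rfl⟩
  obtain ⟨U2, hU2⟩ : ∃ U2 : Bb (kap k u) ![u 0, u 2], (U2 : F) = u 2 := ⟨⟨_, hself 1⟩, rfl⟩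
  obtain ⟨G1, hG1⟩ : ∃ G1 : Bb (kap k u) ![u 0, u 2], (G1 : F) = G :=
    ⟨⟨_, hIK _ h.itg⟩, rfl⟩
  obtain ⟨S1, hS1⟩ : ∃ S1 : Bb (kap k u) ![u 0, u 2], (S1 : F) = S := ⟨⟨_, hIK _ hSI⟩, rfl⟩
  obtain ⟨z1, hz1⟩ : ∃ z1 : Bb (kap k u) ![u 0, u 2], (z1 : F) = z := ⟨⟨_, hIK _ z.2⟩, rfl⟩
  obtain ⟨y1, hy1⟩ : ∃ y1 : Bb (kap k u) ![u 0, u 2], (y1 : F) = y := ⟨⟨_, hIK _ y.2⟩, rfl⟩
  obtain ⟨w1, hw1⟩ : ∃ w1 : Bb (kap k u) ![u 0, u 2], (w1 : F) = aeval u q / G :=
    ⟨⟨_, hIK _ hqG⟩, rfl⟩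
  have hal : ∀ x : kap k u,
      ((algebraMap (kap k u) (Bb (kap k u) ![u 0, u 2]) x : Bb (kap k u) ![u 0, u 2]) : F) = x :=
    fun x => rfl
  obtain ⟨I, hI⟩ : ∃ I : Ideal (Bb (kap k u) ![u 0, u 2]), I = Ideal.span {G1, S1} := ⟨_, rfl⟩
  have hGI : G1 ∈ I := by
    rw [hI]
    exact Ideal.subset_span (Set.mem_insert _ _)
  have hSI' : S1 ∈ I := by
    rw [hI]
    exact Ideal.subset_span (Set.mem_insert_of_mem _ rfl)
  have hU0I : U0 ^ (N * D) ∈ I := by
    have h1 : U0 ^ (N * D) = algebraMap (kap k u) (Bb (kap k u) ![u 0, u 2]) cK⁻¹ *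
        (G1 * z1 - S1 ^ N * y1) := by
      refine Subtype.ext ?_
      rw [MulMemClass.coe_mul, hal, AddSubgroupClass.coe_sub, MulMemClass.coe_mul,
        MulMemClass.coe_mul, SubmonoidClass.coe_pow, SubmonoidClass.coe_pow, hU0, hG1, hS1, hz1,
        hy1, ← hPF, hsc, pow_mul]
      have h2 : ((cK⁻¹ : kap k u) : F) = (cK : F)⁻¹ := rfl
      rw [h2]
      field_simp
    rw [h1]
    refine I.mul_mem_left _ (I.sub_mem (I.mul_mem_right _ hGI) (I.mul_mem_right _ ?_))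
    exact I.pow_mem_of_mem hSI' N (by omega)
  obtain ⟨T, hT, hT'⟩ := bs_expand u hq hq1
  obtain ⟨Y1, hY1⟩ : ∃ Y1 : Bb (kap k u) ![u 0, u 2], U2 ^ N + U0 * Y1 = G1 * w1 := by
    refine ⟨∑ μ ∈ T, algebraMap (kap k u) (Bb (kap k u) ![u 0, u 2])
      (algebraMap k (kap k u) (coeff μ q) * tK ^ μ 1) *
        (U0 ^ (μ 0 + μ 1 - 1) * U2 ^ μ 2), Subtype.ext ?_⟩
    rw [AddMemClass.coe_add, MulMemClass.coe_mul, MulMemClass.coe_mul, hG1, hw1,
      mul_div_cancel₀ _ h.ne, hT, SubmonoidClass.coe_pow, hU2, hU0,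
      AddSubmonoidClass.coe_finsetSum, Finset.mul_sum]
    congr 1
    refine Finset.sum_congr rfl fun μ hμ => ?_
    change u 0 * (algebraMap k F (coeff μ q) * (tK : F) ^ μ 1 *
      ((U0 : F) ^ (μ 0 + μ 1 - 1) * (U2 : F) ^ μ 2)) = _
    rw [hU0, hU2, htK]
    obtain ⟨h2, h3⟩ := hT' μ hμ
    have h4 : u 0 ^ μ 0 * u 1 ^ μ 1 = (u 1 / u 0) ^ μ 1 * (u 0 * u 0 ^ (μ 0 + μ 1 - 1)) := by
      have h5 : u 0 * u 0 ^ (μ 0 + μ 1 - 1) = u 0 ^ μ 0 * u 0 ^ μ 1 := by
        rw [← pow_succ', ← pow_add]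
        congr 1
        omega
      rw [h5, div_pow]
      have h6 : u 0 ^ μ 1 ≠ 0 := pow_ne_zero _ (hu0 0)
      field_simp
    rw [h4]
    ring
  have hU2I : (U2 ^ N) ^ (N * D) ∈ I := by
    have h1 : U2 ^ N - (-(U0 * Y1)) ∈ I := by
      rw [sub_neg_eq_add, hY1]
      exact I.mul_mem_right _ hGI
    have h2 : (U2 ^ N) ^ (N * D) - (-(U0 * Y1)) ^ (N * D) ∈ I :=
      I.mem_of_dvd (sub_dvd_pow_sub_pow _ _ _) h1
    have h3 : (-(U0 * Y1)) ^ (N * D) ∈ I := by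
      have h5 : -(U0 * Y1) = U0 * (-Y1) := by ring
      rw [h5, mul_pow]
      exact I.mul_mem_right _ hU0I
    have h4 := I.add_mem h2 h3
    rwa [sub_add_cancel] at h4
  have h2I : U2 ^ (N * (N * D)) ∈ I := by
    rw [pow_mul]
    exact hU2I
  have h0I : U0 ^ (N * (N * D)) ∈ I := by
    obtain ⟨M, hM⟩ : ∃ M, N = M + 1 := ⟨N - 1, by omega⟩
    have h1 : N * (N * D) = N * D + M * (N * D) := by
      rw [hM]
      ring
    rw [h1, pow_add]
    exact I.mul_mem_right _ hU0I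
  rw [hI, Ideal.mem_span_pair] at h0I h2I
  obtain ⟨a1, b1, e1⟩ := h0I
  obtain ⟨a2, b2, e2⟩ := h2I
  refine ⟨N * (N * D), ![(a1 : F), b1, a2, b2], ?_, ?_, ?_⟩
  · intro i
    fin_cases i
    · exact a1.2
    · exact b1.2
    · exact a2.2
    · exact b2.2
  · have h1 := congrArg (fun x : Bb (kap k u) ![u 0, u 2] => (x : F)) e1
    simp only [AddMemClass.coe_add, MulMemClass.coe_mul, SubmonoidClass.coe_pow, hU0, hG1,
      hS1] at h1
    rw [← hS, ← h1]
    change (a1 : F) * G + b1 * S = G * a1 + S * b1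
    ring
  · have h1 := congrArg (fun x : Bb (kap k u) ![u 0, u 2] => (x : F)) e2
    simp only [AddMemClass.coe_add, MulMemClass.coe_mul, SubmonoidClass.coe_pow, hU2, hG1,
      hS1] at h1
    rw [← hS, ← h1]
    change (a2 : F) * G + b2 * S = G * a2 + S * b2
    ring

end Pool.Agent.H48.SFU
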